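import Mathlib

set_option autoImplicit false

namespace Pool.Agent.H.MP_2f7009_an

open Filter Topology Set MeasureTheory Measure unitInterval

noncomputable abbrev P : Measure (ℕ → I) := infinitePi fun _ => volume

lemma upd (k : ℕ) : (P.prod volume).map (fun p : (ℕ → I) × I => Function.update p.1 k p.2) = P := by
  refine eq_infinitePi _ fun s t ht => ?_
  rw [map_apply measurable_update' (MeasurableSet.pi s.countable_toSet fun i _ => ht i)]
  by_cases h : k ∈ s
  · rw [show (fun p : (ℕ → I) × I => Function.update p.1 k p.2) ⁻¹' pi s t =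
      pi (s.erase k) t ×ˢ t k from ?_, prod_prod, infinitePi_pi _ fun i _ => ht i,
      Finset.prod_erase_mul _ _ h]
    ext p
    simp only [mem_preimage, Set.mem_pi, Finset.mem_coe, mem_prod, Finset.mem_erase]
    refine ⟨fun H => ⟨fun i hi => ?_, by simpa using H k h⟩, fun H i hi => ?_⟩
    · simpa [hi.1] using H i hi.2
    · rcases eq_or_ne i k with rfl | h'
      · simpa using H.2
      · simpa [h'] using H.1 i ⟨h', hi⟩
  · rw [show (fun p : (ℕ → I) × I => Function.update p.1 k p.2) ⁻¹' pi s t =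
      pi s t ×ˢ univ from ?_, prod_prod, infinitePi_pi _ fun i _ => ht i, measure_univ, mul_one]
    ext p
    simp only [mem_preimage, Set.mem_pi, Finset.mem_coe, mem_prod, mem_univ, and_true]
    exact forall₂_congr fun i hi => by rw [Function.update_of_ne fun (h' : i = k) => h (h' ▸ hi)]

variable {X : Type} [NormedAddCommGroup X] [NormedSpace ℝ X]

def Sm (x : X) (d : X →L[ℝ] ℝ) : Prop :=
  ‖d‖ ≤ 1 ∧ d x = ‖x‖ ∧ ∀ v, HasLineDerivAt ℝ (fun y : X => ‖y‖) (d v) x v

lemma le_norm {d : X →L[ℝ] ℝ} (h : ‖d‖ ≤ 1) (x : X) : d x ≤ ‖x‖ :=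
  (le_abs_self _).trans ((d.le_opNorm x).trans (mul_le_of_le_one_left (norm_nonneg _) h))

lemma der_eq {x v : X} {d : X →L[ℝ] ℝ} {L : ℝ} (h1 : ‖d‖ ≤ 1) (h2 : d x = ‖x‖)
    (h : HasLineDerivAt ℝ (fun y : X => ‖y‖) L x v) : L = d v := by
  have h3 := HasDerivAt.sub h ((hasDerivAt_id (0 : ℝ)).mul_const (d v))
  have := IsLocalMin.hasDerivAt_eq_zero (.of_forall fun t => by
    simpa [← h2, le_sub_iff_add_le] using le_norm h1 (x + t • v)) h3
  linarith

lemma sm_of {x : X} {u : ℕ → X} (hu : DenseRange u) {c : ℕ → ℝ} (hc : ∀ k, c k ≠ 0)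
    (h : ∀ k, LineDifferentiableAt ℝ (fun y : X => ‖y‖) x (c k • u k)) : ∃ d, Sm x d := by
  obtain ⟨d, h1, h2⟩ := exists_dual_vector'' ℝ x
  refine ⟨d, h1, h2, fun v => hasLineDerivAt_iff_isLittleO_nhds_zero.2
    (Asymptotics.isLittleO_iff.2 fun ε hε => ?_)⟩
  obtain ⟨k, hk⟩ := hu.exists_dist_lt v (show 0 < ε / 3 by positivity)
  have h3 := (h k).hasLineDerivAt.smul (c k)⁻¹
  rw [inv_smul_smul₀ (hc k)] at h3
  rw [der_eq h1 h2 h3] at h3
  filter_upwards [Asymptotics.isLittleO_iff.1 (hasLineDerivAt_iff_isLittleO_nhds_zero.1 h3)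
    (show 0 < ε / 3 by positivity)] with t ht
  have e : ‖t • (v - u k)‖ ≤ ε / 3 * ‖t‖ := by
    rw [norm_smul, mul_comm, ← dist_eq_norm]
    exact mul_le_mul_of_nonneg_right hk.le (norm_nonneg _)
  have e1 := abs_norm_sub_norm_le (x + t • v) (x + t • u k)
  rw [add_sub_add_left_eq_sub, ← smul_sub] at e1
  have e2 := (d.le_opNorm (t • (v - u k))).trans (mul_le_of_le_one_left (norm_nonneg _) h1)
  simp only [map_smul, map_sub, smul_eq_mul, mul_sub, Real.norm_eq_abs, abs_le] at e1 e2 e ht ⊢
  constructor <;> linarith [e1.1, e1.2, e2.1, e2.2, ht.1, ht.2]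

lemma tele {a : ℕ → ℝ} {A b : ℝ} {n : ℕ} (h : Tendsto a atTop (𝓝 A))
    (h' : ∀ k, n ≤ k → a (k + 1) - a k ≤ b * (1 / 2) ^ k) : A - a n ≤ 2 * b * (1 / 2) ^ n := by
  have t := (h.add ((tendsto_pow_atTop_nhds_zero_of_lt_one (r := 1 / 2) (by norm_num)
    (by norm_num)).const_mul (2 * b)))
  rw [mul_zero, add_zero] at t
  refine sub_le_iff_le_add'.2 (le_of_tendsto t ((eventually_ge_atTop n).mono fun m hm => ?_))
  induction hm with
  | refl => rfl
  | step hm ih =>
    have := h' _ hm
    simp only [Nat.succ_eq_add_one, pow_succ]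
    linarith

variable [CompleteSpace X]

lemma cube [TopologicalSpace.SeparableSpace X] {ε : ℝ} (hε : 0 < ε) : ∃ Z : (ℕ → I) → X,
    Continuous Z ∧ (∀ t, ‖Z t‖ ≤ ε) ∧ ∀ v, ∀ᵐ t ∂P, ∃ d, Sm (v + Z t) d := by
  borelize X
  set u := TopologicalSpace.denseSeq X
  set c : ℕ → ℝ := fun k => ε / 2 / 2 ^ k / (‖u k‖ + 1) with hc
  have c0 : ∀ k, 0 < c k := fun k => by positivity
  have b : ∀ k (t : ℕ → I), ‖(t k : ℝ) • c k • u k‖ ≤ ε / 2 / 2 ^ k := fun k t => by
    rw [norm_smul, norm_smul, Real.norm_of_nonneg (t k).2.1, Real.norm_of_nonneg (c0 k).le]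
    refine (mul_le_of_le_one_left (by positivity) (t k).2.2).trans ?_
    rw [hc, div_mul_eq_mul_div, div_le_iff₀ (by positivity)]
    gcongr
    simp
  have hs := summable_geometric_two' ε
  have hZ : Continuous fun t : ℕ → I => ∑' k, (t k : ℝ) • c k • u k :=
    continuous_tsum (fun k => by fun_prop) hs b
  refine ⟨_, hZ, fun t => tsum_of_norm_bounded (hasSum_geometric_two' ε) fun k => b k t,
    fun v => ?_⟩
  suffices ∀ k, ∀ᵐ t ∂P, LineDifferentiableAt ℝ (fun y : X => ‖y‖)
      (v + ∑' k, (t k : ℝ) • c k • u k) (c k • u k) from (ae_all_iff.2 this).mono fun t ht =>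
    sm_of (TopologicalSpace.denseRange_denseSeq X) (fun k => (c0 k).ne') ht
  intro k
  have m := (hZ.const_add v).measurable
    (measurableSet_lineDifferentiableAt (𝕜 := ℝ) (v := c k • u k) continuous_norm)
  rw [← upd k]
  refine (ae_map_iff measurable_update'.aemeasurable m).2
    ((ae_prod_iff_ae_ae (measurable_update' m)).2 (.of_forall fun t => ?_))
  set y := v + ∑' j, (if j = k then 0 else (t j : ℝ) • c j • u j)
  have l : LipschitzWith _ fun s : ℝ => ‖y + s • c k • u k‖ := lipschitzWith_one_norm.comp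
    ((LipschitzWith.const y).add (ContinuousLinearMap.toSpanSingleton ℝ (c k • u k)).lipschitz)
  filter_upwards [measurePreserving_coe.quasiMeasurePreserving.ae
    (ae_restrict_of_ae l.ae_differentiableAt_real)] with s hs'
  have e : v + ∑' j, (Function.update t k s j : ℝ) • c j • u j = y + (s : ℝ) • c k • u k := by
    rw [(hs.of_norm_bounded fun j => b j _).tsum_eq_add_tsum_ite k, Function.update_self,
      add_comm ((s : ℝ) • _), ← add_assoc]
    congr 2
    exact tsum_congr fun j => by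
      split_ifs with h
      · rfl
      · rw [Function.update_of_ne h]
  change LineDifferentiableAt ℝ _ (v + ∑' j, (Function.update t k s j : ℝ) • c j • u j) _
  rw [e]
  have := DifferentiableAt.comp (0 : ℝ) (g := fun s : ℝ => ‖y + s • c k • u k‖)
    (f := fun τ : ℝ => (s : ℝ) + τ) (by simpa using hs') (by fun_prop)
  simpa only [LineDifferentiableAt, Function.comp_def, add_smul, add_assoc] using this

lemma core [TopologicalSpace.SeparableSpace X] (x : ℕ → X) (hx : ∀ n, ‖x n‖ ≤ 1)
    {f : X →L[ℝ] ℝ} (hf : ‖f‖ ≤ 1) {r : ℝ} (hr : 0 < r) :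
    ∃ y d, Sm y d ∧ ¬ ∀ᶠ n in atTop, d (x n) - f (x n) ≤ -r := by
  by_contra hc
  push Not at hc
  obtain ⟨Z, hZ, hb, hs⟩ := cube (X := X) (show 0 < r / 9 by positivity)
  have ci : ∀ {h : (ℕ → I) → ℝ}, Continuous h → Integrable h P := fun h =>
    h.integrable_of_hasCompactSupport (HasCompactSupport.of_compactSpace _)
  have cz : ∀ y, Continuous fun t => ‖y + Z t‖ := fun y => by fun_prop
  set g := fun y => ∫ t, ‖y + Z t‖ ∂P - f y with hg
  have g1 : ∀ y z, ∫ t, ‖y + Z t‖ ∂P - ∫ t, ‖z + Z t‖ ∂P ≤ ‖y - z‖ := fun y z => by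
    rw [← integral_sub (ci (cz y)) (ci (cz z))]
    simpa using integral_mono (ci ((cz y).sub (cz z))) (integrable_const ‖y - z‖) fun t => by
      simpa using norm_sub_norm_le (y + Z t) (z + Z t)
  have g2 : ∀ y, -(r / 9) ≤ g y := fun y => by
    have := integral_mono (integrable_const (f y - r / 9)) (ci (cz y)) fun t => by
      have := norm_sub_le (y + Z t) (Z t)
      rw [add_sub_cancel_right] at this
      linarith [le_norm hf y, hb t]
    simp only [integral_const, probReal_univ, one_smul] at this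
    simp only [hg]
    linarith
  have g3 : g 0 ≤ r / 9 := by
    simpa [hg] using integral_mono (ci (cz 0)) (integrable_const (r / 9)) fun t => by simp [hb]
  have g4 : ∀ y z, g ((2 / 3 : ℝ) • y + (1 / 3 : ℝ) • z) ≤ 2 / 3 * g y + 1 / 3 * g z :=
    fun y z => by
    have := integral_mono (ci (cz ((2 / 3 : ℝ) • y + (1 / 3 : ℝ) • z)))
      (((ci (cz y)).const_mul (2 / 3)).add ((ci (cz z)).const_mul (1 / 3))) fun t => by
      have := norm_add_le ((2 / 3 : ℝ) • (y + Z t)) ((1 / 3 : ℝ) • (z + Z t))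
      rw [norm_smul, norm_smul, Real.norm_of_nonneg (by norm_num),
        Real.norm_of_nonneg (by norm_num)] at this
      exact le_of_eq_of_le (congrArg norm (by module)) this
    rw [integral_add' ((ci (cz y)).const_mul _) ((ci (cz z)).const_mul _), integral_const_mul,
      integral_const_mul] at this
    simp only [hg, map_add, map_smul, smul_eq_mul]
    linarith
  have gc : Continuous g := (LipschitzWith.of_le_add fun y z => by
    linarith [g1 y z, dist_eq_norm y z]).continuous.sub f.continuous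
  set C := fun n => convexHull ℝ (x '' Ici n) with hC
  have : ∀ (n : ℕ) (v : X), ∃ y ∈ C n, ∀ w ∈ C n, g (v + (1 / 2 : ℝ) ^ n • y) ≤
      g (v + (1 / 2 : ℝ) ^ n • w) + r / 9 * (1 / 2) ^ n * (1 / 2) ^ n := fun n v => by
    obtain ⟨_, ⟨y, hy, rfl⟩, h⟩ := Real.lt_sInf_add_pos (s := (fun w => g (v + (1 / 2 : ℝ) ^ n • w))
      '' C n) ⟨_, x n, subset_convexHull _ _ ⟨n, self_mem_Ici, rfl⟩, rfl⟩
      (show 0 < r / 9 * (1 / 2) ^ n * (1 / 2) ^ n by positivity)
    exact ⟨y, hy, fun w hw => h.le.trans (add_le_add_left (csInf_le ⟨_, forall_mem_image.2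
      fun w _ => g2 _⟩ ⟨w, hw, rfl⟩) _)⟩
  choose F F1 F2 using this
  set v : ℕ → X := fun n => Nat.rec 0 (fun n v => v + (1 / 2 : ℝ) ^ n • F n v) n with hv
  have v1 : ∀ n, v (n + 1) = v n + (1 / 2 : ℝ) ^ n • F n (v n) := fun n => rfl
  have n1 : ∀ n, ‖F n (v n)‖ ≤ 1 := fun n => mem_closedBall_zero_iff.1 (convexHull_min
    (forall_mem_image.2 fun k _ => mem_closedBall_zero_iff.2 (hx k)) (convex_closedBall 0 1)
    (F1 n _))
  have n2 : ∀ n, ‖v (n + 1) - v n‖ ≤ 1 * (1 / 2) ^ n := fun n => by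
    rw [v1, add_sub_cancel_left, norm_smul, Real.norm_of_nonneg (by positivity), mul_comm]
    exact mul_le_mul_of_nonneg_right (n1 n) (by positivity)
  obtain ⟨V, hV⟩ := cauchySeq_tendsto_of_complete (cauchySeq_of_le_geometric (1 / 2) 1 (f := v)
    (by norm_num) fun n => by rw [dist_comm, dist_eq_norm]; exact n2 n)
  have s1 : ∀ n, (-(8 * (r / 9)) + 6 * (r / 9) * (1 / 2) ^ n) * (1 / 2) ^ n ≤
      g (v (n + 1)) - g (v n) := fun n => by
    induction n with
    | zero => linarith [g2 (v (0 + 1)), show g (v 0) ≤ _ from g3]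
    | succ n ih =>
      have h1 := F2 n (v n) _ (convex_convexHull ℝ _ (F1 n (v n)) (convexHull_mono
        (image_mono (Ici_subset_Ici.2 n.le_succ)) (F1 (n + 1) (v (n + 1))))
        (show (0 : ℝ) ≤ 2 / 3 by norm_num) (show (0 : ℝ) ≤ 1 / 3 by norm_num) (by norm_num))
      have h2 := g4 (v (n + 1 + 1)) (v n)
      rw [← v1, show v n + (1 / 2 : ℝ) ^ n • ((2 / 3 : ℝ) • F n (v n) + (1 / 3 : ℝ) •
        F (n + 1) (v (n + 1))) = (2 / 3 : ℝ) • v (n + 1 + 1) + (1 / 3 : ℝ) • v n by
          rw [v1 (n + 1)]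
          generalize F (n + 1) (v (n + 1)) = w
          rw [v1, pow_succ]
          module] at h1
      rw [pow_succ]
      linarith
  have s2 : ∀ n, -g V - -g (v n) ≤ 2 * (8 * (r / 9)) * (1 / 2) ^ n := fun n =>
    tele (a := fun n => -g (v n)) ((gc.tendsto V).comp hV).neg fun k _ => by
      nlinarith [s1 k, show 0 ≤ r * (1 / 2) ^ k * (1 / 2) ^ k by positivity]
  set h := fun n t => (‖V + Z t‖ - ‖v n + Z t‖ - (f V - f (v n))) / (2 * (1 / 2) ^ n) with hh
  have hc' : ∀ n, Continuous (h n) := fun n => (((cz _).sub (cz _)).sub continuous_const).div_const _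
  have n3 : ∀ n, ‖V - v n‖ ≤ 2 * (1 / 2) ^ n := fun n => by
    simpa using tele (a := fun k => ‖v k - v n‖) (n := n) (b := 1) (hV.sub_const _).norm
      fun k _ => (norm_sub_norm_le _ _).trans (by simpa using n2 k)
  have t := tendsto_integral_of_dominated_convergence (μ := P) (F := fun n t => max (h n t) (-r))
    (f := fun _ => -r) (fun _ => 2 + r)
    (fun n => ((hc' n).max continuous_const).aestronglyMeasurable) (integrable_const _)
    (fun n => .of_forall fun t => by
      refine abs_le.2 ⟨le_max_of_le_right (by linarith), max_le ?_ (by linarith)⟩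
      rw [div_le_iff₀ (by positivity)]
      have e1 := norm_sub_norm_le (V + Z t) (v n + Z t)
      have e2 := le_norm hf (v n - V)
      rw [add_sub_add_right_eq_sub] at e1
      rw [map_sub, norm_sub_rev] at e2
      nlinarith [n3 n, show 0 ≤ r * (1 / 2) ^ n by positivity])
    ((hs V).mono fun t ⟨d, hd⟩ => by
      obtain ⟨N, hN⟩ := eventually_atTop.1 (hc _ d hd)
      refine tendsto_const_nhds.congr' ((eventually_ge_atTop N).mono fun n hn =>
        (max_eq_right ?_).symm)
      have e1 := tele (a := fun k => (d - f) (v k)) (n := n) (b := -r)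
        (((d - f).continuous.tendsto V).comp hV) fun k hk => by
        have := convexHull_min (forall_mem_image.2 fun j hj => hN j (hn.trans (hk.trans hj)))
          (convex_halfSpace_le (d - f).toLinearMap.isLinear (-r)) (F1 k (v k))
        rw [v1, map_add, add_sub_cancel_left, map_smul, smul_eq_mul, mul_comm]
        exact mul_le_mul_of_nonneg_right this (by positivity)
      have e2 := le_norm hd.1 (v n + Z t)
      rw [div_le_iff₀ (by positivity), ← hd.2.1]
      simp only [map_add, _root_.sub_apply] at e1 e2 ⊢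
      linarith)
  have := ge_of_tendsto' t fun n => le_trans (show -(8 * (r / 9)) ≤ ∫ t, h n t ∂P by
    rw [integral_div, le_div_iff₀ (by positivity), integral_sub (ci ((cz _).fun_sub (cz _)))
      (integrable_const _), integral_sub (ci (cz _)) (ci (cz _))]
    have := s2 n
    simp only [hg, integral_const, probReal_univ, one_smul] at this ⊢
    linarith) (integral_mono (ci (hc' n)) (ci ((hc' n).max continuous_const))
      fun t => le_max_left _ _)
  simp only [integral_const, probReal_univ, one_smul] at this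
  linarith

end Pool.Agent.H.MP_2f7009_an
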