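import Pool.Agent.H.MP_2f7009_an.A

set_option autoImplicit false

namespace Pool.Agent.H.MP_2f7009_an

open Filter Topology Set Metric Pointwise

variable {X : Type} [NormedAddCommGroup X] [NormedSpace ℝ X]

lemma sep {K : Set (WeakDual ℝ X)} (h1 : Convex ℝ K) (h2 : IsClosed K) {f : WeakDual ℝ X}
    (h : f ∉ K) : ∃ x : X, ∃ u, (∀ ψ ∈ K, ψ x < u) ∧ u < f x := by
  have := (WeakDual.withSeminorms ℝ X).toLocallyConvexSpace
  obtain ⟨l, u, h3, h4⟩ := geometric_hahn_banach_closed_point h1 h2 h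
  obtain ⟨x, rfl⟩ := LinearMap.dualEmbedding_surjective (topDualPairing ℝ X) l
  exact ⟨x, u, h3, h4⟩

lemma cpt {E : Type} [AddCommGroup E] [Module ℝ E] [TopologicalSpace E] [ContinuousAdd E]
    [ContinuousSMul ℝ E] {s t : Set E} (h1 : Convex ℝ s) (h2 : Convex ℝ t) (h3 : IsCompact s)
    (h4 : IsCompact t) : IsCompact (convexHull ℝ (s ∪ t)) := by
  rcases s.eq_empty_or_nonempty with rfl | hs
  · rwa [empty_union, h2.convexHull_eq]
  rcases t.eq_empty_or_nonempty with rfl | ht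
  · rwa [union_empty, h1.convexHull_eq]
  have := ((isCompact_Icc (a := (0 : ℝ)) (b := 1)).prod (h3.prod h4)).image
    (f := fun p => (1 - p.1) • p.2.1 + p.1 • p.2.2) (by fun_prop)
  rw [h1.convexHull_union h2 hs ht]
  refine (Set.ext fun z => ?_ : _ = convexJoin ℝ s t) ▸ this
  simp only [mem_convexJoin, segment_eq_image, mem_image, mem_prod, Prod.exists]
  exact ⟨fun ⟨a, x, y, ⟨h1, h2, h3⟩, h⟩ => ⟨x, h2, y, h3, a, h1, h⟩,
    fun ⟨x, h2, y, h3, a, h1, h⟩ => ⟨a, x, y, ⟨h1, h2, h3⟩, h⟩⟩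

def W (B : Set (X →L[ℝ] ℝ)) : Set (X →L[ℝ] ℝ) :=
  {φ | ∀ F : Finset X, ∀ ε : ℝ, 0 < ε → ∃ ψ ∈ convexHull ℝ B, ∀ x ∈ F, |φ x - ψ x| < ε}

lemma W_le {B : Set (X →L[ℝ] ℝ)} {x : X} {b : ℝ} (h : ∀ ψ ∈ B, ψ x ≤ b) {φ : X →L[ℝ] ℝ}
    (hφ : φ ∈ W B) : φ x ≤ b := by
  refine le_of_forall_pos_le_add fun ε hε => ?_
  obtain ⟨ψ, h1, h2⟩ := hφ {x} ε hε
  have : ψ x ≤ b := convexHull_min h (convex_halfSpace_le
    (ContinuousLinearMap.apply ℝ ℝ x).toLinearMap.isLinear b) h1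
  linarith [(abs_lt.1 (h2 x (Finset.mem_singleton_self x))).2]

lemma gold (F : (X →L[ℝ] ℝ) →L[ℝ] ℝ) {ι : Type} [Finite ι] (p q : ι → X →L[ℝ] ℝ) {a b : ℝ}
    (hp : ∀ i, F (p i) < a) (hq : ∀ i, b < F (q i)) :
    ∃ x, ‖x‖ ≤ ‖F‖ ∧ ∀ i, p i x < a ∧ b < q i x := by
  have : (F : WeakDual ℝ (X →L[ℝ] ℝ)) ∈ closure (X := WeakDual ℝ (X →L[ℝ] ℝ))
      (NormedSpace.inclusionInDoubleDual ℝ X '' closedBall 0 ‖F‖) := by
    by_contra hc
    obtain ⟨φ, u, h1, h2⟩ := sep (Convex.closure (E := WeakDual ℝ (X →L[ℝ] ℝ))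
      ((convex_closedBall 0 ‖F‖).linear_image
      (NormedSpace.inclusionInDoubleDual ℝ X).toLinearMap)) isClosed_closure hc
    have h3 : ∀ x : X, ‖x‖ ≤ ‖F‖ → φ x < u := fun x hx =>
      h1 _ (subset_closure ⟨x, mem_closedBall_zero_iff.2 hx, rfl⟩)
    have h4 : F φ ≤ ‖F‖ * ‖φ‖ := (le_abs_self _).trans (F.le_opNorm φ)
    rcases (norm_nonneg F).eq_or_lt with h | h
    · have := h3 0 (by simp [h.le])
      rw [← h, zero_mul] at h4
      rw [map_zero] at this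
      exact (this.trans h2).not_ge h4
    refine (h2.trans_le h4).not_ge ((le_div_iff₀' h).1 (φ.opNorm_le_of_unit_norm ?_ fun x hx => ?_))
    · exact div_nonneg (by simpa using (h3 0 (by simp [h.le])).le) h.le
    have e1 := h3 (‖F‖ • x) (by simp [norm_smul, hx, abs_of_pos h])
    have e2 := h3 (-(‖F‖ • x)) (by simp [norm_smul, hx, abs_of_pos h])
    rw [map_neg] at e2
    rw [map_smul, smul_eq_mul] at e1 e2
    rw [le_div_iff₀' h, Real.norm_eq_abs, ← abs_of_pos h, ← abs_mul, abs_le]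
    constructor <;> linarith
  obtain ⟨_, h1, x, hx, rfl⟩ := (_root_.mem_closure_iff (X := WeakDual ℝ (X →L[ℝ] ℝ))).1 this
    (⋂ i, {G : WeakDual ℝ (X →L[ℝ] ℝ) | G (p i) < a ∧ b < G (q i)})
    (isOpen_iInter_of_finite fun i => (isOpen_lt (WeakDual.eval_continuous _)
      continuous_const).inter (isOpen_lt continuous_const (WeakDual.eval_continuous _)))
    (mem_iInter.2 fun i => ⟨hp i, hq i⟩)
  exact ⟨x, mem_closedBall_zero_iff.1 hx, mem_iInter.1 h1⟩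

variable [CompleteSpace X]

lemma ienv [TopologicalSpace.SeparableSpace X] (B : ℕ → Set (X →L[ℝ] ℝ))
    (hB : ∀ y d, Sm y d → ∃ n, d ∈ B n) :
    closedBall 0 1 ⊆ closure (convexHull ℝ (⋃ n, W (B n))) := fun f hf => by
  by_contra hc
  obtain ⟨r, r0, hr⟩ := Metric.isOpen_iff.1 isClosed_closure.isOpen_compl f hc
  set C : ℕ → Set (WeakDual ℝ X) := fun n =>
    closure (convexHull ℝ (B n ∩ closedBall 0 1 : Set (X →L[ℝ] ℝ)) : Set (WeakDual ℝ X))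
  have c1 : ∀ n, IsCompact (C n) := fun n => (WeakDual.isCompact_closedBall 0 1).of_isClosed_subset
    isClosed_closure (closure_minimal (convexHull_min inter_subset_right
      (convex_closedBall (0 : X →L[ℝ] ℝ) 1)) (WeakDual.isClosed_closedBall 0 1))
  have c2 : ∀ n, C n ⊆ W (B n) := fun n φ hφ F ε hε => by
    obtain ⟨ψ, h1, h2⟩ := _root_.mem_closure_iff.1 hφ (⋂ x ∈ F, {ψ | |φ x - ψ x| < ε})
      (isOpen_biInter_finset fun x _ => isOpen_lt (continuous_const.sub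
        (WeakDual.eval_continuous x)).abs continuous_const) (by simpa using fun _ _ => hε)
    exact ⟨ψ, convexHull_mono inter_subset_left h2, fun x hx => mem_iInter₂.1 h1 x hx⟩
  set K : ℕ → Set (WeakDual ℝ X) := fun n => Nat.rec ∅ (fun n K => convexHull ℝ (K ∪ C n)) n
  have k1 : ∀ n, Convex ℝ (K n) ∧ IsCompact (K n) ∧
      K n ⊆ (convexHull ℝ (⋃ n, W (B n)) : Set (X →L[ℝ] ℝ)) := fun n => by
    induction n with
    | zero => exact ⟨convex_empty, isCompact_empty, empty_subset _⟩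
    | succ n ih => exact ⟨convex_convexHull _ _, cpt ih.1 (convex_convexHull ℝ _).closure ih.2.1
        (c1 n), convexHull_min (union_subset ih.2.2 ((c2 n).trans ((subset_iUnion
          (fun n => W (B n)) n).trans (subset_convexHull ℝ _)))) (convex_convexHull ℝ _)⟩
  have k2 : Monotone K := monotone_nat_of_le_succ fun n =>
    subset_union_left.trans (subset_convexHull ℝ _)
  have : ∀ n, ∃ x, ‖x‖ ≤ 1 ∧ ∀ ψ ∈ K n, ψ x - f x ≤ -(r / 2) := fun n => by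
    obtain ⟨x, u, h1, h2⟩ := sep ((k1 n).1.add (convex_closedBall (0 : X →L[ℝ] ℝ) (r / 2)))
      ((k1 n).2.1.add (WeakDual.isCompact_closedBall 0 (r / 2))).isClosed (f := f) (by
        rintro ⟨ψ : X →L[ℝ] ℝ, h1, ρ : X →L[ℝ] ℝ, h2, h3 : ψ + ρ = f⟩
        refine hr (a := ψ) (mem_ball'.2 ?_) (subset_closure ((k1 n).2.2 h1))
        rw [dist_eq_norm, sub_eq_of_eq_add' h3.symm]
        exact (mem_closedBall_zero_iff.1 h2).trans_lt (half_lt_self r0))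
    obtain ⟨d, d1, d2⟩ := exists_dual_vector'' ℝ x
    refine ⟨‖x‖⁻¹ • x, by
      rw [norm_smul, norm_inv, norm_norm]
      exact inv_mul_le_one, fun ψ hψ => ?_⟩
    have h3 : ψ x + r / 2 * d x < u := h1 _ ⟨ψ, hψ, ((r / 2) • d : X →L[ℝ] ℝ),
      mem_closedBall_zero_iff.2 ((norm_smul_of_nonneg (half_pos r0).le d).trans_le
        (mul_le_of_le_one_right (half_pos r0).le d1)), rfl⟩
    have x0 : 0 < ‖x‖ := norm_pos_iff.2 fun h => by
      have e1 : ψ x = 0 := by rw [h, map_zero]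
      have e2 : d x = 0 := by rw [h, map_zero]
      have e3 : f x = 0 := by rw [h, map_zero]
      have : u < f x := h2
      rw [e1, e2] at h3
      linarith
    rw [map_smul, map_smul, smul_eq_mul, smul_eq_mul, ← mul_sub, inv_mul_le_iff₀ x0]
    have : d x = ‖x‖ := d2
    have : u < f x := h2
    nlinarith
  choose x x1 x2 using this
  obtain ⟨y, d, h1, h2⟩ := core x x1 (mem_closedBall_zero_iff.1 hf) (half_pos r0)
  obtain ⟨m, hm⟩ := hB y d h1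
  exact h2 ((eventually_ge_atTop (m + 1)).mono fun n hn => x2 n d (k2 hn (subset_convexHull ℝ _
    (Or.inr (subset_closure (subset_convexHull ℝ _ ⟨hm, mem_closedBall_zero_iff.2 h1.1⟩))))))

omit [CompleteSpace X] in
lemma Sm.exp {y : X} {d : X →L[ℝ] ℝ} (h : Sm y d) (ψ : X →L[ℝ] ℝ) (h1 : ‖ψ‖ ≤ 1) (h2 : ψ ≠ d) :
    ψ y < d y := by
  rw [h.2.1]
  exact lt_of_le_of_ne (le_norm h1 y) fun h3 =>
    h2 (ContinuousLinearMap.ext fun v => (der_eq h1 h3 (h.2.2 v)).symm)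

lemma l1 (x : ℕ → X) {M a b : ℝ} (hM : ∀ n, ‖x n‖ ≤ M) (hab : a < b)
    (h : ∀ n (σ : ℕ → Prop), ∃ ψ : X →L[ℝ] ℝ, ‖ψ‖ ≤ 1 ∧
      ∀ i < n, (σ i → b < ψ (x i)) ∧ (¬ σ i → ψ (x i) < a)) :
    ∃ T : (lp (fun _ : ℕ => ℝ) 1) →L[ℝ] X, ∃ c : ℝ, 0 < c ∧ ∀ a, c * ‖a‖ ≤ ‖T a‖ := by
  have h1 : ∀ y : lp (fun _ : ℕ => ℝ) 1, HasSum (fun i => ‖y i‖) ‖y‖ := fun y => by
    simpa using lp.hasSum_norm (by simp) y
  have h2 : ∀ (y : lp (fun _ : ℕ => ℝ) 1) i, ‖y i • x i‖ ≤ M * ‖y i‖ := fun y i => by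
    rw [norm_smul, mul_comm]
    exact mul_le_mul_of_nonneg_right (hM i) (norm_nonneg _)
  have h3 : ∀ y : lp (fun _ : ℕ => ℝ) 1, Summable fun i => y i • x i := fun y =>
    ((h1 y).mul_left M).summable.of_norm_bounded (h2 y)
  refine ⟨LinearMap.mkContinuous ⟨⟨fun y => ∑' i, y i • x i, fun y z => by
    simp only [lp.coeFn_add, Pi.add_apply, add_smul, (h3 y).tsum_add (h3 z)]⟩, fun t y => by
    simp only [lp.coeFn_smul, Pi.smul_apply, smul_assoc, (h3 y).tsum_const_smul t,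
      RingHom.id_apply]⟩ M fun y => tsum_of_norm_bounded ((h1 y).mul_left M) (h2 y),
    (b - a) / 2, by linarith, fun y => le_of_tendsto_of_tendsto'
      ((h1 y).tendsto_sum_nat.const_mul _) (h3 y).hasSum.tendsto_sum_nat.norm fun n => ?_⟩
  obtain ⟨φ, p1, p2⟩ := h n fun i => 0 ≤ y i
  obtain ⟨ψ, q1, q2⟩ := h n fun i => ¬ 0 ≤ y i
  have e1 := le_norm p1 (∑ i ∈ Finset.range n, y i • x i)
  have e2 := le_norm q1 (-∑ i ∈ Finset.range n, y i • x i)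
  have e3 : ∑ i ∈ Finset.range n, (b - a) * ‖y i‖ ≤
      ∑ i ∈ Finset.range n, (y i * φ (x i) - y i * ψ (x i)) := Finset.sum_le_sum fun i hi => by
    have p := p2 i (Finset.mem_range.1 hi)
    have q := q2 i (Finset.mem_range.1 hi)
    by_cases h0 : 0 ≤ y i
    · rw [Real.norm_of_nonneg h0]
      nlinarith [p.1 h0, q.2 (not_not.2 h0)]
    · rw [Real.norm_of_nonpos (not_le.1 h0).le]
      nlinarith [p.2 h0, q.1 h0, not_le.1 h0]
  simp only [map_neg, norm_neg, map_sum, map_smul, smul_eq_mul, ← Finset.mul_sum,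
    Finset.sum_sub_distrib] at e1 e2 e3
  linarith

lemma cover [TopologicalSpace.SeparableSpace X]
    (hX : ¬ ∃ T : (lp (fun _ : ℕ => ℝ) 1) →L[ℝ] X, ∃ c : ℝ, 0 < c ∧ ∀ a, c * ‖a‖ ≤ ‖T a‖)
    (F : (X →L[ℝ] ℝ) →L[ℝ] ℝ) {a b : ℝ} (hab : a < b) {E : Set (X →L[ℝ] ℝ)}
    (hE : ∀ ψ ∈ E, ‖ψ‖ ≤ 1 ∧ F ψ < a) :
    ∃ B : ℕ → Set (X →L[ℝ] ℝ), E ⊆ ⋃ n, B n ∧ ∀ n, ∀ φ ∈ W (B n), F φ ≤ b := by
  set u := TopologicalSpace.denseSeq X
  set Φ := fun (ψ : X →L[ℝ] ℝ) k => ψ (u k)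
  set Cov := fun A : Set (X →L[ℝ] ℝ) => ∃ S : Set (Set (X →L[ℝ] ℝ)), S.Countable ∧ A ⊆ ⋃₀ S ∧
    ∀ B ∈ S, ∀ φ ∈ W B, F φ ≤ b
  obtain ⟨T, t1, t2, t3⟩ := TopologicalSpace.isOpen_sUnion_countable
    {U : Set (ℕ → ℝ) | IsOpen U ∧ Cov (E ∩ Φ ⁻¹' U)} fun U hU => hU.1
  set G := ⋃₀ {U : Set (ℕ → ℝ) | IsOpen U ∧ Cov (E ∩ Φ ⁻¹' U)}
  have g : Cov (E ∩ Φ ⁻¹' G) := by
    choose! S s1 s2 s3 using fun U (hU : U ∈ T) => (t2 hU).2
    refine ⟨⋃ U ∈ T, S U, t1.biUnion s1, fun ψ hψ => ?_, fun B hB => ?_⟩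
    · obtain ⟨U, h1, h2⟩ := t3.ge hψ.2
      obtain ⟨B, h3, h4⟩ := s2 U h1 ⟨hψ.1, h2⟩
      exact ⟨B, mem_biUnion h1 h3, h4⟩
    · obtain ⟨U, h1, h2⟩ := mem_iUnion₂.1 hB
      exact s3 U h1 B h2
  by_cases hL : E ⊆ Φ ⁻¹' G
  · obtain ⟨S, s1, s2, s3⟩ := g
    obtain ⟨B, hB⟩ := (s1.insert ∅).exists_eq_range (insert_nonempty _ _)
    refine ⟨B, fun ψ hψ => ?_, fun n => ?_⟩
    · obtain ⟨A, h1, h2⟩ := s2 ⟨hψ, hL hψ⟩
      obtain ⟨n, rfl⟩ := hB.le (mem_insert_of_mem _ h1)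
      exact mem_iUnion.2 ⟨n, h2⟩
    · rcases hB.ge ⟨n, rfl⟩ with h | h
      · intro φ hφ
        simpa [h] using hφ ∅ 1 one_pos
      · exact s3 _ h
  refine (hX ?_).elim
  set Q := fun n (k : ℕ → ℕ) => (∀ i < n, ‖u (k i)‖ ≤ ‖F‖ + 1) ∧ ∀ σ : ℕ → Prop,
    ∃ ψ ∈ E \ Φ ⁻¹' G, ∀ i < n, (σ i → b < ψ (u (k i))) ∧ (¬ σ i → ψ (u (k i)) < a)
  have step : ∀ n k, ∃ j, Q n k → Q (n + 1) (Function.update k n j) := fun n k => by
    by_cases hQ : Q n k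
    swap
    · exact ⟨0, fun h => (hQ h).elim⟩
    set U := fun σ : Fin n → Prop => ⋂ i : Fin n,
      {w : ℕ → ℝ | (σ i → b < w (k i)) ∧ (¬ σ i → w (k i) < a)}
    have u1 : ∀ σ, IsOpen (U σ) := fun σ => isOpen_iInter_of_finite fun i => by
      by_cases h : σ i
      · simpa [h] using isOpen_lt continuous_const (continuous_apply (k i))
      · simpa [h] using isOpen_lt (continuous_apply (k i)) continuous_const
    have u2 : ∀ σ, ∃ p ∈ (E \ Φ ⁻¹' G) ∩ Φ ⁻¹' U σ, ∃ q ∈ W ((E \ Φ ⁻¹' G) ∩ Φ ⁻¹' U σ), b < F q :=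
      fun σ => by
      obtain ⟨p, p1, p2⟩ := hQ.2 fun i => ∃ h : i < n, σ ⟨i, h⟩
      have p3 : Φ p ∈ U σ := mem_iInter.2 fun i => by simpa using p2 i i.2
      refine ⟨p, ⟨p1, p3⟩, by_contra fun hc => p1.2 ⟨U σ, ⟨u1 σ, ?_⟩, p3⟩⟩
      push Not at hc
      obtain ⟨S, s1, s2, s3⟩ := g
      refine ⟨insert _ S, s1.insert _, fun ψ hψ => ?_, forall_mem_insert.2 ⟨hc, s3⟩⟩
      rw [sUnion_insert]
      exact or_iff_not_imp_right.2 fun h => ⟨⟨hψ.1, fun h' => h (s2 ⟨hψ.1, h'⟩)⟩, hψ.2⟩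
    choose p p1 q q1 q2 using u2
    obtain ⟨x, x1, x2⟩ := gold F p q (fun σ => (hE _ (p1 σ).1.1).2) q2
    obtain ⟨j, j1, j2⟩ := (TopologicalSpace.denseRange_denseSeq X).exists_mem_open
      (s := ball 0 (‖F‖ + 1) ∩ ⋂ σ, {x | p σ x < a ∧ b < q σ x}) (isOpen_ball.inter
        (isOpen_iInter_of_finite fun σ => (isOpen_lt (p σ).continuous continuous_const).inter
          (isOpen_lt continuous_const (q σ).continuous)))
      ⟨x, mem_ball_zero_iff.2 (by linarith), mem_iInter.2 x2⟩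
    refine ⟨j, fun _ => ⟨fun i hi => ?_, fun σ => ?_⟩⟩
    · rcases (Nat.lt_succ_iff.1 hi).eq_or_lt with rfl | h
      · simpa using (mem_ball_zero_iff.1 j1).le
      · simpa [h.ne] using hQ.1 i h
    obtain ⟨ψ, h1, h2⟩ : ∃ ψ ∈ (E \ Φ ⁻¹' G) ∩ Φ ⁻¹' U fun i => σ i,
        (σ n → b < ψ (u j)) ∧ (¬ σ n → ψ (u j) < a) := by
      by_cases h : σ n
      · by_contra hc
        push Not at hc
        exact (mem_iInter.1 j2 _).2.not_ge (W_le (fun ψ hψ => not_lt.1 fun h' =>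
          (hc ψ hψ fun _ => h').1 h) (q1 fun i => σ i))
      · exact ⟨_, p1 _, fun h' => (h h').elim, fun _ => (mem_iInter.1 j2 _).1⟩
    refine ⟨ψ, h1.1, fun i hi => ?_⟩
    rcases (Nat.lt_succ_iff.1 hi).eq_or_lt with rfl | h
    · simpa using h2
    · simpa [h.ne] using mem_iInter.1 h1.2 ⟨i, h⟩
  choose f hf using step
  set s : ℕ → ℕ → ℕ := fun n => Nat.rec 0 (fun n k => Function.update k n (f n k)) n
  have s1 : ∀ n, Q n (s n) := fun n => by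
    induction n with
    | zero =>
      obtain ⟨ψ, h⟩ := not_subset.1 hL
      exact ⟨by simp, fun σ => ⟨ψ, h, by simp⟩⟩
    | succ n ih => exact hf n _ ih
  have s2 : ∀ i n, i < n → s n i = s (i + 1) i := fun i n h => by
    induction h with
    | refl => rfl
    | step h ih => exact (Function.update_of_ne (Nat.ne_of_lt h) _ _).trans ih
  refine l1 (fun i => u (s (i + 1) i)) (fun n => (s1 _).1 n n.lt_succ_self) hab fun n σ => ?_
  obtain ⟨ψ, h1, h2⟩ := (s1 n).2 σ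
  exact ⟨ψ, (hE _ h1.1).1, fun i hi => s2 i n hi ▸ h2 i hi⟩

end Pool.Agent.H.MP_2f7009_an
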