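import Pool.Agent.H.MP_2f7009_an.B

set_option autoImplicit false

namespace Pool.Agent.H.MP_2f7009_an

open Filter Topology Set Metric

variable {X : Type} [NormedAddCommGroup X] [NormedSpace ℝ X]

def Small (A : Set X) : Prop := ∃ c : Set (X →L[ℝ] ℝ), c.Countable ∧
  ∀ y ∈ A, ∀ d, Sm y d → ∃ e ∈ c, ‖d - e‖ ≤ 1 / 2

def Sep (x y : X) : Prop :=
  ∀ f g : X →L[ℝ] ℝ, ‖f‖ = 1 → f x = 1 → ‖g‖ = 1 → g y = 1 → 1 / 2 ≤ ‖f - g‖

lemma Sm.unit [Nontrivial X] {y : X} {d : X →L[ℝ] ℝ} (h : Sm y d) : ∃ z, ‖z‖ = 1 ∧ Sm z d := by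
  have y0 : y ≠ 0 := by
    rintro rfl
    obtain ⟨v, hv⟩ := exists_ne (0 : X)
    have := h.exp (-d) (by simpa using h.1) fun h' => ?_
    · simp at this
    obtain ⟨ψ, p1, p2⟩ := exists_dual_vector ℝ v (norm_ne_zero_iff.2 hv)
    have e1 := not_not.1 (mt (h.exp ψ p1.le) (by simp))
    rw [← e1] at h'
    have := congrArg (fun φ => φ v) h'
    simp only [_root_.neg_apply, p2, RCLike.ofReal_real_eq_id, id] at this
    linarith [norm_pos_iff.2 hv]
  have n0 := norm_pos_iff.2 y0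
  refine ⟨‖y‖⁻¹ • y, norm_smul_inv_norm y0, h.1, by
    rw [map_smul, h.2.1, norm_smul_of_nonneg (inv_nonneg.2 n0.le), smul_eq_mul], fun v => ?_⟩
  have := (HasDerivAt.const_mul ‖y‖⁻¹ (h.2.2 (‖y‖ • v))).congr_deriv
    (g' := d v) (by rw [map_smul, smul_eq_mul, inv_mul_cancel_left₀ n0.ne'])
  refine this.congr_of_eventuallyEq (.of_forall fun t => ?_)
  beta_reduce
  rw [← norm_smul_of_nonneg (inv_nonneg.2 n0.le), smul_add, smul_comm t, inv_smul_smul₀ n0.ne']

lemma big [CompleteSpace X] [TopologicalSpace.SeparableSpace X] (h : Small (sphere (0 : X) 1)) :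
    TopologicalSpace.SeparableSpace (X →L[ℝ] ℝ) := by
  obtain ⟨c, c1, c2⟩ := h
  rcases subsingleton_or_nontrivial X with hX | hX
  · infer_instance
  obtain ⟨e, he⟩ := (c1.insert 0).exists_eq_range (insert_nonempty _ _)
  set Y := (Submodule.span ℝ (range e)).topologicalClosure
  refine TopologicalSpace.isSeparable_univ_iff.1 (((countable_range e).isSeparable.span
    (R := ℝ)).closure.mono fun g _ => by_contra fun hg => ?_)
  obtain ⟨f, -, f1, f2⟩ := riesz_lemma_of_lt_one (F := Y) (Submodule.isClosed_topologicalClosure _)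
    ⟨g, hg⟩ (show (3 / 4 : ℝ) < 1 by norm_num)
  have h := ienv (fun n => closedBall (e n) (1 / 2)) (fun y d h => by
    obtain ⟨z, z1, z2⟩ := h.unit
    obtain ⟨a, a1, a2⟩ := c2 z (mem_sphere_zero_iff_norm.2 z1) d z2
    obtain ⟨n, rfl⟩ := he.le (mem_insert_of_mem _ a1)
    exact ⟨n, mem_closedBall_iff_norm.2 a2⟩) (mem_closedBall_zero_iff.2 f1.le)
  have := closure_minimal (convexHull_min (t := cthickening (1 / 2) (Y : Set (X →L[ℝ] ℝ)))
    (iUnion_subset fun n φ hφ => mem_cthickening_of_dist_le φ (e n) _ _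
      (Submodule.le_topologicalClosure _ (Submodule.subset_span ⟨n, rfl⟩)) (by
      rw [dist_eq_norm]
      refine ContinuousLinearMap.opNorm_le_bound _ (by norm_num) fun x => ?_
      have k : ∀ x, φ x ≤ e n x + 1 / 2 * ‖x‖ := fun x => W_le (fun ψ hψ => by
        have := (le_abs_self _).trans (((ψ - e n).le_opNorm x).trans
          (mul_le_mul_of_nonneg_right (mem_closedBall_iff_norm.1 hψ) (norm_nonneg _)))
        rw [_root_.sub_apply] at this
        linarith) hφ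
      have k1 := k x
      have k2 := k (-x)
      rw [map_neg, map_neg, norm_neg] at k2
      rw [_root_.sub_apply, Real.norm_eq_abs, abs_le]
      constructor <;> linarith)) (Y.convex.cthickening _)) isClosed_cthickening h
  obtain ⟨z, z1, z2⟩ := mem_thickening_iff.1 (cthickening_subset_thickening'
    (show (0 : ℝ) < 3 / 4 by norm_num) (by norm_num) _ this)
  exact (f2 z z1).not_gt (by rwa [← dist_eq_norm])

lemma near {x y : X} {d e : X →L[ℝ] ℝ} (hx : Sm x d) (hy : Sm y e) (h : 1 / 2 < ‖d - e‖) :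
    ∀ᶠ p in 𝓝 (x, y), ‖p.1‖ = 1 → ‖p.2‖ = 1 → Sep p.1 p.2 := by
  obtain ⟨v, v1, v2⟩ : ∃ v, ‖v‖ ≤ 1 ∧ 1 / 2 < d v - e v := by
    obtain ⟨v, v1, v2⟩ := (d - e).exists_lt_apply_of_lt_opNorm h
    rcases lt_abs.1 v2 with h | h
    · exact ⟨v, v1.le, h⟩
    · exact ⟨-v, by simpa using v1.le, by rwa [← map_neg] at h⟩
  have t := ((hasLineDerivAt_iff_tendsto_slope_zero.1 (hx.2.2 (-v))).add
    (hasLineDerivAt_iff_tendsto_slope_zero.1 (hy.2.2 v))).mono_left (nhdsGT_le_nhdsNE 0)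
  obtain ⟨s, s1, s0⟩ := ((t.eventually (gt_mem_nhds (show d (-v) + e v < -(1 / 2) by
    rw [map_neg]; linarith))).and self_mem_nhdsWithin).exists
  have s0 : 0 < s := s0
  have c : Continuous fun p : X × X => s⁻¹ • (‖p.1 + s • -v‖ - ‖p.1‖) +
    s⁻¹ • (‖p.2 + s • v‖ - ‖p.2‖) := by fun_prop
  filter_upwards [(c.tendsto (x, y)).eventually (gt_mem_nhds s1)] with p hp p1 p2 f g f1 f2 g1 g2
  have e1 := le_norm f1.le (p.1 + s • -v)
  have e2 := le_norm g1.le (p.2 + s • v)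
  have e3 := (le_abs_self _).trans ((f - g).le_of_opNorm_le_of_le le_rfl v1)
  simp only [map_add, map_smul, map_neg, smul_eq_mul, f2, g2, p1, p2, ← mul_add,
    inv_mul_lt_iff₀ s0, _root_.sub_apply] at e1 e2 e3 hp
  nlinarith

lemma split [TopologicalSpace.SeparableSpace X] {C : Set X} (h1 : IsClosed C)
    (h2 : C ⊆ sphere 0 1) (h3 : ¬ Small C) (n : ℕ) : ∃ D : Bool → Set X,
      (∀ a, (IsClosed (D a) ∧ D a ⊆ sphere 0 1 ∧ ¬ Small (D a)) ∧ D a ⊆ C ∧
        ∃ z, D a ⊆ closedBall z (1 / (n + 1))) ∧ ∀ x ∈ D false, ∀ y ∈ D true, Sep x y := by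
  have := UniformSpace.secondCountable_of_separable X
  obtain ⟨T, t1, t2, t3⟩ := TopologicalSpace.isOpen_sUnion_countable
    {U : Set X | IsOpen U ∧ Small (C ∩ U)} fun U hU => hU.1
  choose! S s1 s2 using fun U (hU : U ∈ T) => (t2 hU).2
  have k : ∀ d, ∃ y ∈ C, (∀ δ > 0, ¬ Small (C ∩ closedBall y δ)) ∧
      ∃ e, Sm y e ∧ 1 / 2 < ‖e - d‖ := fun d => by
    by_contra hc
    push Not at hc
    refine h3 ⟨insert d (⋃ U ∈ T, S U), (t1.biUnion s1).insert _, fun y hy e he => ?_⟩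
    by_cases h : ∀ δ > 0, ¬ Small (C ∩ closedBall y δ)
    · exact ⟨d, mem_insert _ _, hc y hy h e he⟩
    push Not at h
    obtain ⟨δ, d0, c, c1, c2⟩ := h
    obtain ⟨U, u1, u2⟩ := t3.ge ⟨ball y δ, ⟨isOpen_ball, c, c1, fun z hz =>
      c2 z ⟨hz.1, ball_subset_closedBall hz.2⟩⟩, mem_ball_self d0⟩
    obtain ⟨a, a1, a2⟩ := s2 U u1 y ⟨hy, u2⟩ e he
    exact ⟨a, mem_insert_of_mem _ (mem_biUnion u1 a1), a2⟩
  obtain ⟨y, -, y2, e, y3, -⟩ := k 0
  obtain ⟨x, -, x2, d, x3, h⟩ := k e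
  obtain ⟨δ, d0, hδ⟩ := nhds_basis_closedBall.eventually_iff.1 (near x3 y3 h)
  have m : 0 < min δ (1 / (n + 1 : ℝ)) := by positivity
  refine ⟨fun a => C ∩ closedBall (bif a then y else x) (min δ (1 / (n + 1))), fun a =>
    ⟨⟨h1.inter isClosed_closedBall, inter_subset_left.trans h2, by
      cases a
      exacts [x2 _ m, y2 _ m]⟩, inter_subset_left, _, inter_subset_right.trans
        (closedBall_subset_closedBall (min_le_right _ _))⟩, fun u hu v hv => ?_⟩
  refine hδ (x := (u, v)) ?_ (mem_sphere_zero_iff_norm.1 (h2 hu.1))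
    (mem_sphere_zero_iff_norm.1 (h2 hv.1))
  rw [← closedBall_prod_same]
  exact ⟨closedBall_subset_closedBall (min_le_left _ _) hu.2,
    closedBall_subset_closedBall (min_le_left _ _) hv.2⟩

lemma cantor [CompleteSpace X] [TopologicalSpace.SeparableSpace X]
    (h : ¬ Small (sphere (0 : X) 1)) : ∃ φ : (ℕ → Bool) → X, Continuous φ ∧ (∀ σ, ‖φ σ‖ = 1) ∧
      ∀ σ τ, σ ≠ τ → Sep (φ σ) (φ τ) := by
  choose F f1 f2 using fun (C : {C : Set X // IsClosed C ∧ C ⊆ sphere 0 1 ∧ ¬ Small C}) n =>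
    split C.2.1 C.2.2.1 C.2.2.2 n
  set DP : List Bool → {C : Set X // IsClosed C ∧ C ⊆ sphere 0 1 ∧ ¬ Small C} := fun l =>
    l.rec ⟨_, isClosed_sphere, subset_rfl, h⟩ fun a l C => ⟨F C l.length a, (f1 _ _ a).1⟩
  set D := fun l => (DP l).1
  have hanti : CantorScheme.ClosureAntitone D :=
    CantorScheme.Antitone.closureAntitone (fun l a => (f1 _ _ a).2.1) fun l => (DP l).2.1
  have hdiam : CantorScheme.VanishingDiam D := fun x => by
    have t := (ENNReal.continuous_ofReal.tendsto _).comp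
      ((tendsto_one_div_add_atTop_nhds_zero_nat (𝕜 := ℝ)).const_mul 2)
    rw [mul_zero, ENNReal.ofReal_zero] at t
    refine (tendsto_add_atTop_iff_nat 1).1 (tendsto_of_tendsto_of_tendsto_of_le_of_le
      tendsto_const_nhds t (fun _ => zero_le) fun n => ediam_le fun u hu v hv => ?_)
    obtain ⟨z, hz⟩ := (f1 (DP (PiNat.res x n)) (PiNat.res x n).length (x n)).2.2
    rw [edist_dist]
    refine ENNReal.ofReal_le_ofReal ((dist_triangle_right u v z).trans ?_)
    have h1 : dist u z ≤ _ := hz hu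
    have h2 : dist v z ≤ _ := hz hv
    rw [PiNat.res_length] at h1 h2
    linarith
  have hdom : ∀ x : ℕ → Bool, x ∈ (CantorScheme.inducedMap D).1 := fun x => by
    rw [hanti.map_of_vanishingDiam hdiam fun l => nonempty_iff_ne_empty.2 fun h =>
      (DP l).2.2.2 ⟨∅, countable_empty, fun y hy => (h.le hy).elim⟩]
    exact mem_univ _
  refine ⟨fun x => (CantorScheme.inducedMap D).2 ⟨x, hdom x⟩,
    hdiam.map_continuous.comp (by fun_prop), fun σ =>
    mem_sphere_zero_iff_norm.1 (CantorScheme.map_mem (A := D) ⟨σ, hdom σ⟩ 0), fun σ τ hne => ?_⟩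
  have m1 := CantorScheme.map_mem (A := D) ⟨σ, hdom σ⟩ (PiNat.firstDiff σ τ + 1)
  have m2 := CantorScheme.map_mem (A := D) ⟨τ, hdom τ⟩ (PiNat.firstDiff σ τ + 1)
  have e : PiNat.res σ (PiNat.firstDiff σ τ) = PiNat.res τ (PiNat.firstDiff σ τ) :=
    PiNat.res_eq_res.2 fun m hm => PiNat.apply_eq_of_lt_firstDiff hm
  have e2 := PiNat.apply_firstDiff_ne hne
  simp only [PiNat.res_succ] at m1 m2
  rw [← e] at m2
  cases h1 : σ (PiNat.firstDiff σ τ) <;> cases h2 : τ (PiNat.firstDiff σ τ) <;>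
    rw [h1] at m1 e2 <;> rw [h2] at m2 e2
  · exact (e2 rfl).elim
  · exact f2 _ _ _ m1 _ m2
  · exact fun f g a b c d => (f2 _ _ _ m2 _ m1 g f c d a b).trans_eq (norm_sub_rev _ _)
  · exact (e2 rfl).elim

end Pool.Agent.H.MP_2f7009_an
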